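import Mathlib

set_option autoImplicit false

namespace Pool.Agent.W899.ANS

open List

variable {A : Type} [LinearOrder A]

/-- Radix order: shorter words first, words of equal length lexicographically. -/
def Before (u w : List A) : Prop := List.Shortlex (· < ·) u w

theorem before_iff {u w : List A} :
    Before u w ↔ u.length < w.length ∨ (u.length = w.length ∧ u < w) := by
  unfold Before
  rw [List.shortlex_def]
  rfl

theorem before_irrefl (w : List A) : ¬ Before w w := by
  rw [before_iff]; simp

theorem before_trans {u v w : List A} (h1 : Before u v) (h2 : Before v w) : Before u w := by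
  rw [before_iff] at *
  rcases h1 with h1 | ⟨h1, h1'⟩ <;> rcases h2 with h2 | ⟨h2, h2'⟩
  · left; omega
  · left; omega
  · left; omega
  · right; exact ⟨by omega, h1'.trans h2'⟩

theorem before_total {u v : List A} (h : u ≠ v) : Before u v ∨ Before v u := by
  rw [before_iff, before_iff]
  rcases lt_trichotomy u.length v.length with h1 | h1 | h1
  · left; left; exact h1
  · rcases lt_trichotomy u v with h2 | h2 | h2
    · left; right; exact ⟨h1, h2⟩
    · exact absurd h2 h
    · right; right; exact ⟨h1.symm, h2⟩
  · right; left; exact h1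

theorem before_length {u w : List A} (h : Before u w) : u.length ≤ w.length := by
  rw [before_iff] at h
  omega

variable [Fintype A]

theorem finite_short (n : ℕ) : {u : List A | u.length ≤ n}.Finite :=
  List.finite_length_le A n

/-- number of words of `L` before `w` -/
noncomputable def val (L : Language A) (w : List A) : ℕ := {u | u ∈ L ∧ Before u w}.ncard

theorem fin_before (L : Language A) (w : List A) : {u | u ∈ L ∧ Before u w}.Finite :=
  (finite_short w.length).subset (fun _ h => before_length h.2)

theorem val_lt {L : Language A} {u w : List A} (hu : u ∈ L) (h : Before u w) :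
    val L u < val L w := by
  refine Set.ncard_lt_ncard ?_ (fin_before L w)
  refine ⟨fun z hz => ⟨hz.1, before_trans hz.2 h⟩, fun hs => ?_⟩
  exact before_irrefl u (hs (show u ∈ {u | u ∈ L ∧ Before u w} from ⟨hu, h⟩)).2

theorem val_inj {L : Language A} {u w : List A} (hu : u ∈ L) (hw : w ∈ L)
    (h : val L u = val L w) : u = w := by
  by_contra hne
  rcases before_total hne with h1 | h1
  · exact absurd (val_lt hu h1) (by omega)
  · exact absurd (val_lt hw h1) (by omega)

theorem before_of_val_lt {L : Language A} {u w : List A} (hu : u ∈ L) (hw : w ∈ L)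
    (h : val L u < val L w) : Before u w := by
  have hne : u ≠ w := by rintro rfl; omega
  rcases before_total hne with h1 | h1
  · exact h1
  · exact absurd (val_lt hw h1) (by omega)

/-- number of words of length `< n` -/
noncomputable def vv (L : Language A) (n : ℕ) : ℕ := {u | u ∈ L ∧ u.length < n}.ncard

theorem fin_vv (L : Language A) (n : ℕ) : {u | u ∈ L ∧ u.length < n}.Finite :=
  (finite_short n).subset (fun _ h => le_of_lt h.2)

theorem val_lt_vv {L : Language A} {w : List A} {n : ℕ} (hw : w ∈ L) (h : w.length < n) :
    val L w < vv L n := by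
  refine Set.ncard_lt_ncard ?_ (fin_vv L n)
  refine ⟨fun z hz => ⟨hz.1, lt_of_le_of_lt (before_length hz.2) h⟩, fun hs => ?_⟩
  exact before_irrefl w (hs (show w ∈ {u | u ∈ L ∧ u.length < n} from ⟨hw, h⟩)).2

theorem vv_le_val {L : Language A} {w : List A} {n : ℕ} (h : n ≤ w.length) :
    vv L n ≤ val L w := by
  refine Set.ncard_le_ncard ?_ (fin_before L w)
  intro z hz
  refine ⟨hz.1, ?_⟩
  rw [before_iff]; left
  exact lt_of_lt_of_le hz.2 h

theorem val_surj {L : Language A} {n x : ℕ} (h : x < vv L n) :
    ∃ w ∈ L, w.length < n ∧ val L w = x := by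
  classical
  set S := (fin_vv L n).toFinset with hS
  have hc : S.card = vv L n := by
    rw [vv, Set.ncard_eq_toFinset_card _ (fin_vv L n)]
  have himg : S.image (val L) = Finset.range (vv L n) := by
    apply Finset.eq_of_subset_of_card_le
    · intro y hy
      obtain ⟨w, hw, rfl⟩ := Finset.mem_image.1 hy
      rw [hS, Set.Finite.mem_toFinset] at hw
      exact Finset.mem_range.2 (val_lt_vv hw.1 hw.2)
    · rw [Finset.card_range, ← hc, Finset.card_image_of_injOn]
      intro u hu w hw huw
      rw [hS, Set.Finite.coe_toFinset] at hu hw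
      exact val_inj hu.1 hw.1 huw
  have : x ∈ S.image (val L) := by rw [himg]; exact Finset.mem_range.2 h
  obtain ⟨w, hw, rfl⟩ := Finset.mem_image.1 this
  rw [hS, Set.Finite.mem_toFinset] at hw
  exact ⟨w, hw.1, hw.2, rfl⟩

/-- sandwich -/
theorem sandwich (p : List A) : ∀ (w1 w2 z : List A), ¬ z < p ++ w1 → z < p ++ w2 →
    ∃ u, z = p ++ u := by
  induction p with
  | nil => intro w1 w2 z _ _; exact ⟨z, rfl⟩
  | cons a p ih =>
    intro w1 w2 z h1 h2
    cases z with
    | nil => exact absurd (by simp) h1
    | cons c z =>
      rw [List.cons_append, List.cons_lt_cons_iff] at h1 h2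
      have hca : c = a := by
        rcases h2 with h2 | ⟨h2, _⟩
        · exact absurd (Or.inl h2) h1
        · exact h2
      subst hca
      have h1' : ¬ z < p ++ w1 := fun h => h1 (Or.inr ⟨rfl, h⟩)
      have h2' : z < p ++ w2 := by
        rcases h2 with h2 | ⟨_, h2⟩
        · exact absurd h2 (lt_irrefl _)
        · exact h2
      obtain ⟨u, rfl⟩ := ih w1 w2 z h1' h2'
      exact ⟨u, rfl⟩

theorem append_lt (p : List A) : ∀ {u w : List A}, p ++ u < p ++ w ↔ u < w := by
  induction p with
  | nil => intro u w; rfl
  | cons a p ih =>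
    intro u w
    rw [List.cons_append, List.cons_append, List.cons_lt_cons_iff]
    simp [ih]

/-- the gap between `p w1` and `p w2` -/
theorem gap (L : Language A) (p w1 w2 : List A) (hlen : w1.length = w2.length) (hlt : w1 < w2) :
    val L (p ++ w2) = val L (p ++ w1) +
      {u | u.length = w1.length ∧ ¬ u < w1 ∧ u < w2 ∧ p ++ u ∈ L}.ncard := by
  classical
  have hset : {u | u ∈ L ∧ Before u (p ++ w2)} = {u | u ∈ L ∧ Before u (p ++ w1)} ∪
      (p ++ ·) '' {u | u.length = w1.length ∧ ¬ u < w1 ∧ u < w2 ∧ p ++ u ∈ L} := by
    ext z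
    simp only [Set.mem_setOf_eq, Set.mem_union, Set.mem_image, before_iff, List.length_append]
    constructor
    · rintro ⟨hz, h⟩
      by_cases hb : z.length < p.length + w1.length ∨ z.length = p.length + w1.length ∧ z < p ++ w1
      · left; exact ⟨hz, hb⟩
      · right
        push Not at hb
        have hl : z.length = p.length + w1.length := by omega
        have h2 : z < p ++ w2 := by
          rcases h with h | h
          · omega
          · exact h.2
        have h1 : ¬ z < p ++ w1 := not_lt.2 (hb.2 hl)
        obtain ⟨u, rfl⟩ := sandwich p w1 w2 z h1 h2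
        refine ⟨u, ⟨?_, ?_, ?_, hz⟩, rfl⟩
        · rw [List.length_append] at hl; omega
        · intro h; exact h1 ((append_lt p).2 h)
        · exact (append_lt p).1 h2
    · rintro (⟨hz, h⟩ | ⟨u, ⟨hl, h1, h2, hu⟩, rfl⟩)
      · refine ⟨hz, ?_⟩
        rcases h with h | ⟨h, h'⟩
        · left; omega
        · right; exact ⟨by omega, h'.trans ((append_lt p).2 hlt)⟩
      · refine ⟨hu, Or.inr ⟨by rw [List.length_append]; omega, (append_lt p).2 h2⟩⟩
  have hfin : {u : List A | u.length = w1.length ∧ ¬ u < w1 ∧ u < w2 ∧ p ++ u ∈ L}.Finite :=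
    (finite_short w1.length).subset (fun _ h => le_of_eq h.1)
  unfold val
  rw [hset, Set.ncard_union_eq ?_ (fin_before L _) (hfin.image _), Set.ncard_image_of_injective]
  · intro a b hab
    exact List.append_cancel_left hab
  · rw [Set.disjoint_left]
    rintro z ⟨_, hz⟩ ⟨u, ⟨hl, h1, _, _⟩, rfl⟩
    rw [before_iff] at hz
    simp only [List.length_append] at hz
    rcases hz with hz | ⟨_, hz⟩
    · omega
    · exact h1 ((append_lt p).1 hz)

end Pool.Agent.W899.ANS
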