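import Pool.Agent.W899.ANS

set_option autoImplicit false

namespace Pool.Agent.W899.ANS

open List

variable {A : Type} [LinearOrder A] [Fintype A]

/-- `x < y` are consecutive in `X` -/
def Consec (X : Set ℕ) (x y : ℕ) : Prop := x ∈ X ∧ y ∈ X ∧ x < y ∧ ∀ z ∈ X, ¬ (x < z ∧ z < y)

/-- words of `L` with value in `X` -/
def RR (L : Language A) (X : Set ℕ) : Language A := {w | w ∈ L ∧ val L w ∈ X}

theorem mem_RR {L : Language A} {X : Set ℕ} {w : List A} :
    w ∈ RR L X ↔ w ∈ L ∧ val L w ∈ X := Iff.rfl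

/-- two words consecutive among the words of `R` with first part `p` have consecutive values -/
theorem consec_of {L : Language A} {X : Set ℕ} {p w1 w2 : List A}
    (hlen : w1.length = w2.length) (hlt : w1 < w2)
    (h1 : p ++ w1 ∈ RR L X) (h2 : p ++ w2 ∈ RR L X)
    (hno : ∀ u : List A, u.length = w1.length → w1 < u → u < w2 → p ++ u ∉ RR L X) :
    Consec X (val L (p ++ w1)) (val L (p ++ w2)) := by
  refine ⟨h1.2, h2.2, ?_, ?_⟩
  · apply val_lt h1.1
    rw [before_iff]; right
    exact ⟨by simp [hlen], (append_lt p).2 hlt⟩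
  · rintro z hz ⟨hz1, hz2⟩
    obtain ⟨w, hw, _, rfl⟩ := val_surj (L := L) (n := (p ++ w2).length + 1) (x := z)
      (hz2.trans (val_lt_vv h2.1 (Nat.lt_succ_self _)))
    have b1 := before_of_val_lt h1.1 hw hz1
    have b2 := before_of_val_lt hw h2.1 hz2
    rw [before_iff] at b1 b2
    simp only [List.length_append] at b1 b2
    have hl : w.length = p.length + w1.length := by omega
    have c1 : p ++ w1 < w := by
      rcases b1 with b | b
      · omega
      · exact b.2
    have c2 : w < p ++ w2 := by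
      rcases b2 with b | b
      · omega
      · exact b.2
    obtain ⟨u, rfl⟩ := sandwich p w1 w2 w (not_lt.2 c1.le) c2
    refine hno u ?_ ((append_lt p).1 c1) ((append_lt p).1 c2) ⟨hw, hz⟩
    rw [List.length_append] at hl; omega

/-- The gap property of `X` from `x0` on. -/
def GapProp (X : Set ℕ) (x0 : ℕ) : Prop :=
  ∀ x y x' y' : ℕ, Consec X x y → Consec X x' y' → x0 ≤ x → x0 ≤ x' → y - x = y' - x' → x = x'

/-- heavy node -/
def Heavy (R : Language A) (p : List A) (j : ℕ) : Prop :=
  ∃ u w : List A, u.length = j ∧ w.length = j ∧ u ≠ w ∧ p ++ u ∈ R ∧ p ++ w ∈ R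

theorem heavy_unique {L : Language A} {X : Set ℕ} {x0 : ℕ} (hX : GapProp X x0)
    {p p' : List A} {j : ℕ} (hp : p.length = p'.length)
    (hL : ∀ u : List A, p ++ u ∈ L ↔ p' ++ u ∈ L)
    (hR : ∀ u : List A, p ++ u ∈ RR L X ↔ p' ++ u ∈ RR L X)
    (hbig : x0 ≤ vv L (p.length + j))
    (hh : Heavy (RR L X) p j) : p = p' := by
  classical
  -- the two smallest words
  obtain ⟨u, w, hu, hw, hne, hu2, hw2⟩ := hh
  have hfin : {z : List A | z.length = j ∧ p ++ z ∈ RR L X}.Finite :=
    (finite_short j).subset (fun _ h => le_of_eq h.1)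
  set S := hfin.toFinset with hS
  have hmS : ∀ z, z ∈ S ↔ z.length = j ∧ p ++ z ∈ RR L X := by
    intro z; rw [hS, Set.Finite.mem_toFinset]; rfl
  have hSne : S.Nonempty := ⟨u, (hmS u).2 ⟨hu, hu2⟩⟩
  set w1 := S.min' hSne with hw1
  have hw1S : w1 ∈ S := S.min'_mem hSne
  have hT : (S.erase w1).Nonempty := by
    by_cases h : u = w1
    · exact ⟨w, Finset.mem_erase.2 ⟨fun h' => hne (h.trans h'.symm), (hmS w).2 ⟨hw, hw2⟩⟩⟩
    · exact ⟨u, Finset.mem_erase.2 ⟨h, (hmS u).2 ⟨hu, hu2⟩⟩⟩
  set w2 := (S.erase w1).min' hT with hw2'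
  have hw2S : w2 ∈ S.erase w1 := Finset.min'_mem _ hT
  have hw2S' : w2 ∈ S := Finset.mem_of_mem_erase hw2S
  have hlt : w1 < w2 := lt_of_le_of_ne (S.min'_le _ hw2S') (Ne.symm (Finset.ne_of_mem_erase hw2S))
  have hl1 := (hmS w1).1 hw1S
  have hl2 := (hmS w2).1 hw2S'
  have hno : ∀ z : List A, z.length = w1.length → w1 < z → z < w2 → p ++ z ∉ RR L X := by
    intro z hz hz1 hz2 hz3
    have : z ∈ S.erase w1 := Finset.mem_erase.2 ⟨ne_of_gt hz1, (hmS z).2 ⟨hz.trans hl1.1, hz3⟩⟩
    exact absurd (Finset.min'_le _ _ this) (not_le.2 hz2)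
  have hc := consec_of (hl1.1.trans hl2.1.symm) hlt hl1.2 hl2.2 hno
  have hc' := consec_of (p := p') (hl1.1.trans hl2.1.symm) hlt ((hR _).1 hl1.2) ((hR _).1 hl2.2)
    (fun z a b c d => hno z a b c ((hR _).2 d))
  have hg : val L (p ++ w2) - val L (p ++ w1) = val L (p' ++ w2) - val L (p' ++ w1) := by
    rw [gap L p w1 w2 (hl1.1.trans hl2.1.symm) hlt, gap L p' w1 w2 (hl1.1.trans hl2.1.symm) hlt]
    simp only [hL, Nat.add_sub_cancel_left]
  have hx : val L (p ++ w1) = val L (p' ++ w1) := by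
    refine hX _ _ _ _ hc hc' ?_ ?_ hg
    · exact hbig.trans (vv_le_val (by rw [List.length_append, hl1.1]))
    · exact hbig.trans (vv_le_val (by rw [List.length_append, hl1.1, hp]))
  have := val_inj hl1.2.1 ((hL _).1 hl1.2.1) hx
  exact (List.append_inj this hp).1

/-- linear bound for the number of words of length `n` of `R` -/
theorem linear_bound {L : Language A} {X : Set ℕ} {x0 : ℕ} (hX : GapProp X x0)
    {σ : Type} [Fintype σ] (st : List A → σ)
    (hst : ∀ p p' : List A, st p = st p' → ∀ u : List A,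
      (p ++ u ∈ L ↔ p' ++ u ∈ L) ∧ (p ++ u ∈ RR L X ↔ p' ++ u ∈ RR L X))
    {n : ℕ} (hbig : x0 ≤ vv L n) :
    {w | w ∈ RR L X ∧ w.length = n}.ncard ≤ 1 + n * Fintype.card σ * Fintype.card A := by
  classical
  by_cases hone : {w | w ∈ RR L X ∧ w.length = n}.ncard ≤ 1
  · omega
  push Not at hone
  have hfin : {w | w ∈ RR L X ∧ w.length = n}.Finite :=
    (finite_short n).subset (fun _ h => le_of_eq h.2)
  -- the root is heavy
  have hroot : Heavy (RR L X) [] n := by
    obtain ⟨a, b, ha, hb, hab⟩ := (Set.one_lt_ncard_iff hfin).1 hone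
    exact ⟨a, b, ha.2, hb.2, hab, ha.1, hb.1⟩
  -- deepest heavy node on the path of w
  have hex : ∀ w : List A, w.length = n →
      ∃ i, i < n ∧ Heavy (RR L X) (w.take i) (n - i) ∧
        ∀ u : List A, u ∈ RR L X → u.length = n → w ∈ RR L X →
          u.take (i+1) = w.take (i+1) → u = w := by
    intro w hw
    have hP : ∃ i, i ≤ n ∧ Heavy (RR L X) (w.take i) (n - i) := ⟨0, Nat.zero_le _, by simpa using hroot⟩
    set i := Nat.findGreatest (fun i => Heavy (RR L X) (w.take i) (n - i)) n with hi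
    have hi1 : Heavy (RR L X) (w.take i) (n - i) := by
      obtain ⟨k, hk, hk2⟩ := hP
      exact Nat.findGreatest_spec (P := fun i => Heavy (RR L X) (w.take i) (n - i)) hk hk2
    have hin : i ≤ n := Nat.findGreatest_le n
    have hi2 : i < n := by
      rcases lt_or_eq_of_le hin with h | h
      · exact h
      · exfalso
        rw [h, Nat.sub_self] at hi1
        obtain ⟨u, v, hu, hv, hne, _⟩ := hi1
        exact hne (by rw [List.length_eq_zero_iff.1 hu, List.length_eq_zero_iff.1 hv])
    refine ⟨i, hi2, hi1, ?_⟩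
    intro u hu hun hwR htake
    by_contra hne
    have hnot : ¬ Heavy (RR L X) (w.take (i+1)) (n - (i+1)) :=
      Nat.findGreatest_is_greatest (P := fun i => Heavy (RR L X) (w.take i) (n - i))
        (Nat.lt_succ_self i) hi2
    apply hnot
    refine ⟨u.drop (i+1), w.drop (i+1), by simp [hun], by simp [hw], ?_, ?_, ?_⟩
    · intro h
      apply hne
      rw [← List.take_append_drop (i+1) u, ← List.take_append_drop (i+1) w, h, htake]
    · rw [← htake, List.take_append_drop]; exact hu
    · rw [List.take_append_drop]; exact hwR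
  choose! i hi1 hi2 hi3 using hex
  by_cases hn : n = 0
  · subst hn
    exfalso
    obtain ⟨u, v, hu, hv, hne, _⟩ := hroot
    exact hne (by rw [List.length_eq_zero_iff.1 hu, List.length_eq_zero_iff.1 hv])
  -- code
  have hA : Nonempty A := by
    obtain ⟨u, v, hu, hv, hne, _⟩ := hroot
    cases u with
    | nil => simp at hu; omega
    | cons a u => exact ⟨a⟩
  obtain ⟨a0⟩ := hA
  set f : List A → ℕ × σ × A := fun w => (i w, st (w.take (i w)), w.getD (i w) a0) with hf
  have hinj : Set.InjOn f {w | w ∈ RR L X ∧ w.length = n} := by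
    rintro w ⟨hw, hwn⟩ w' ⟨hw', hwn'⟩ hww
    simp only [hf, Prod.mk.injEq] at hww
    obtain ⟨e1, e2, e3⟩ := hww
    have hlen : (w.take (i w)).length = (w'.take (i w')).length := by
      simp only [List.length_take, e1, hwn, hwn']
    have hlw : (w.take (i w)).length = i w := by
      rw [List.length_take, hwn]; exact min_eq_left (hi1 w hwn).le
    have htk : w.take (i w) = w'.take (i w') := by
      refine heavy_unique hX (j := n - i w) hlen (fun u => (hst _ _ e2 u).1)
        (fun u => (hst _ _ e2 u).2) ?_ (hi2 w hwn)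
      rw [hlw, Nat.add_sub_cancel' (hi1 w hwn).le]
      exact hbig
    refine hi3 w' hwn' w hw hwn hw' ?_
    rw [← e1] at htk e3 ⊢
    have g1 : i w < w.length := by rw [hwn]; exact hi1 w hwn
    have g2 : i w < w'.length := by rw [hwn']; exact hi1 w hwn
    rw [List.take_succ_eq_append_getElem g1, List.take_succ_eq_append_getElem g2, htk]
    rw [List.getD_eq_getElem _ _ g1, List.getD_eq_getElem _ _ g2] at e3
    rw [e3]
  have hsub : f '' {w | w ∈ RR L X ∧ w.length = n} ⊆
      ((Finset.range n ×ˢ (Finset.univ : Finset (σ × A)) : Finset (ℕ × σ × A)) : Set (ℕ × σ × A)) := by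
    rintro _ ⟨w, ⟨_, hwn⟩, rfl⟩
    simp only [hf, Finset.coe_product, Set.mem_prod, Finset.coe_range, Set.mem_Iio,
      Finset.coe_univ, Set.mem_univ, and_true]
    exact hi1 w hwn
  have h1 : {w | w ∈ RR L X ∧ w.length = n}.ncard = (f '' {w | w ∈ RR L X ∧ w.length = n}).ncard :=
    (Set.ncard_image_of_injOn hinj).symm
  have h2 := Set.ncard_le_ncard hsub (Finset.finite_toSet _)
  rw [Set.ncard_coe_finset, Finset.card_product, Finset.card_range, Finset.card_univ,
    Fintype.card_prod] at h2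
  rw [h1]
  calc _ ≤ _ := h2
    _ ≤ 1 + n * Fintype.card σ * Fintype.card A := by rw [mul_assoc]; omega

end Pool.Agent.W899.ANS
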