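import Pool.Agent.W899.ANS2

set_option autoImplicit false

namespace Pool.Agent.W899.ANS

open Filter Polynomial

theorem ev_pos (q : ℝ[X]) (h : 0 < q.leadingCoeff) : ∀ᶠ x : ℝ in atTop, 0 < q.eval x := by
  by_cases hd : 0 < q.degree
  · exact (q.tendsto_atTop_of_leadingCoeff_nonneg hd h.le).eventually_gt_atTop 0
  · have := Polynomial.eq_C_of_degree_le_zero (not_lt.1 hd)
    rw [this] at h ⊢
    rw [Polynomial.leadingCoeff_C] at h
    filter_upwards with x
    rw [Polynomial.eval_C]; exact h

theorem ev_mono (q : ℝ[X]) (h : 0 < q.leadingCoeff) (hd : 1 ≤ q.natDegree) :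
    ∃ a : ℝ, StrictMonoOn (fun x => q.eval x) (Set.Ici a) := by
  have h1 : 0 < (derivative q).leadingCoeff := by
    rw [Polynomial.leadingCoeff_derivative]
    have : (0:ℝ) < q.natDegree := by exact_mod_cast hd
    positivity
  obtain ⟨a, ha⟩ := Filter.eventually_atTop.1 (ev_pos _ h1)
  refine ⟨a, strictMonoOn_of_deriv_pos (convex_Ici a) q.continuous.continuousOn ?_⟩
  intro x hx
  rw [interior_Ici] at hx
  rw [Polynomial.deriv]
  exact ha x (le_of_lt hx)

theorem ev_gap (q : ℝ[X]) (h : 0 < q.leadingCoeff) (hd : 2 ≤ q.natDegree) :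
    ∃ a : ℝ, ∀ x ≥ a, q.eval x < q.eval (x+1) ∧
      q.eval (x+1) - q.eval x < q.eval (x+2) - q.eval (x+1) := by
  obtain ⟨a, ha⟩ := ev_mono q h (by omega)
  have h1 : 0 < (derivative q).leadingCoeff := by
    rw [Polynomial.leadingCoeff_derivative]
    have : (0:ℝ) < q.natDegree := by exact_mod_cast (show 0 < q.natDegree by omega)
    positivity
  have hnd : 1 ≤ (derivative q).natDegree := by
    have h2 : (derivative q).degree = (q.natDegree - 1 : ℕ) := Polynomial.degree_derivative (by omega)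
    rw [Polynomial.natDegree_eq_of_degree_eq_some h2]
    omega
  obtain ⟨b, hb⟩ := ev_mono (derivative q) h1 hnd
  refine ⟨max a b, fun x hx => ⟨?_, ?_⟩⟩
  · exact ha (le_trans (le_max_left _ _) hx)
      (show a ≤ x + 1 by linarith [le_trans (le_max_left a b) hx]) (by linarith)
  · set g : ℝ[X] := q.comp (X + 1) - q with hg
    have hgm : StrictMonoOn (fun x => g.eval x) (Set.Ici b) := by
      refine strictMonoOn_of_deriv_pos (convex_Ici b) g.continuous.continuousOn ?_
      intro y hy
      rw [interior_Ici] at hy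
      have hy' : b < y := hy
      rw [Polynomial.deriv, hg]
      simp only [Polynomial.derivative_sub, Polynomial.derivative_comp, Polynomial.derivative_add,
        Polynomial.derivative_X, Polynomial.derivative_one, add_zero, one_mul, Polynomial.eval_sub,
        Polynomial.eval_comp, Polynomial.eval_add, Polynomial.eval_X, Polynomial.eval_one]
      have := hb (le_of_lt hy' : b ≤ y) (show b ≤ y + 1 by linarith) (by linarith)
      simp only at this
      linarith
    have hbx : b ≤ x := le_trans (le_max_right a b) hx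
    have := hgm (show b ≤ x from hbx) (show b ≤ x + 1 by linarith) (by linarith)
    simp only [hg, Polynomial.eval_sub, Polynomial.eval_comp, Polynomial.eval_add,
      Polynomial.eval_X, Polynomial.eval_one] at this
    have e : x + 1 + 1 = x + 2 := by ring
    rw [e] at this
    exact this

variable (P : ℚ[X])

theorem lead_pos (hdeg : 2 ≤ P.natDegree) (f : ℕ → ℕ) (hf : ∀ n : ℕ, P.eval (n : ℚ) = f n) :
    0 < (P.map (algebraMap ℚ ℝ)).leadingCoeff := by
  set p := P.map (algebraMap ℚ ℝ) with hp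
  have hpd : p.natDegree = P.natDegree := Polynomial.natDegree_map _
  by_contra hneg
  push Not at hneg
  have hdp : 0 < p.degree := by
    rw [← Polynomial.natDegree_pos_iff_degree_pos]; omega
  have ht := p.tendsto_atBot_of_leadingCoeff_nonpos hdp hneg
  have h1 := (ht.comp tendsto_natCast_atTop_atTop).eventually_lt_atBot 0
  obtain ⟨n, hn⟩ := h1.exists
  simp only [Function.comp] at hn
  have h2 : p.eval (n : ℝ) = ((P.eval (n : ℚ) : ℚ) : ℝ) := by
    rw [hp]
    have := Polynomial.eval_map_algebraMap (B := ℝ) P (n:ℝ)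
    rw [this]
    have h3 := Polynomial.aeval_algebraMap_apply ℝ (n : ℚ) P
    simpa using h3
  rw [h2, hf] at hn
  have : (0:ℝ) ≤ ((f n : ℚ) : ℝ) := by positivity
  linarith

theorem eval_real (f : ℕ → ℕ) (hf : ∀ n : ℕ, P.eval (n : ℚ) = f n) (n : ℕ) :
    (P.map (algebraMap ℚ ℝ)).eval (n : ℝ) = f n := by
  have := Polynomial.eval_map_algebraMap (B := ℝ) P (n:ℝ)
  rw [this]
  have h3 := Polynomial.aeval_algebraMap_apply ℝ (n : ℚ) P
  rw [show (algebraMap ℚ ℝ) (n : ℚ) = (n : ℝ) by simp] at h3
  rw [h3]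
  rw [show (Polynomial.aeval (n : ℚ)) P = P.eval (n : ℚ) by simp, hf]
  simp

theorem good_threshold (hdeg : 2 ≤ P.natDegree) (f : ℕ → ℕ)
    (hf : ∀ n : ℕ, P.eval (n : ℚ) = f n) :
    ∃ M : ℕ, (∀ m ≥ M, f m < f (m+1)) ∧ (∀ m ≥ M, f (m+1) - f m < f (m+2) - f (m+1)) ∧
      ∀ j < M, f j < f M := by
  set p := P.map (algebraMap ℚ ℝ) with hp
  have hpd : p.natDegree = P.natDegree := Polynomial.natDegree_map _
  have hlead := lead_pos P hdeg f hf
  obtain ⟨a, ha⟩ := ev_gap p hlead (by omega)
  obtain ⟨M1, hM1⟩ := exists_nat_ge a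
  have hev := eval_real P f hf
  have k1 : ∀ m ≥ M1, f m < f (m+1) := by
    intro m hm
    have h := (ha (m:ℝ) (hM1.trans (by exact_mod_cast hm))).1
    rw [hev, show (m:ℝ) + 1 = ((m+1 : ℕ) : ℝ) by push_cast; ring, hev] at h
    exact_mod_cast h
  have k2 : ∀ m ≥ M1, f (m+1) - f m < f (m+2) - f (m+1) := by
    intro m hm
    have h := (ha (m:ℝ) (hM1.trans (by exact_mod_cast hm))).2
    rw [hev, show (m:ℝ) + 1 = ((m+1 : ℕ) : ℝ) by push_cast; ring,
      show (m:ℝ) + 2 = ((m+2 : ℕ) : ℝ) by push_cast; ring, hev, hev] at h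
    have g1 := k1 m hm
    have g2 := k1 (m+1) (by omega)
    have h' : ((f (m+1) : ℤ) - f m : ℤ) < (f (m+2) : ℤ) - f (m+1) := by exact_mod_cast h
    have e : f (m+1+1) = f (m+2) := rfl
    omega
  -- tends to infinity
  have hmono : ∀ k, f M1 + k ≤ f (M1 + k) := by
    intro k
    induction k with
    | zero => simp
    | succ k ih =>
      have := k1 (M1 + k) (by omega)
      have e : f (M1 + k + 1) = f (M1 + (k+1)) := rfl
      omega
  have hmono2 : ∀ m ≥ M1, ∀ k, f m + k ≤ f (m + k) := by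
    intro m hm k
    induction k with
    | zero => simp
    | succ k ih =>
      have := k1 (m + k) (by omega)
      have e : f (m + k + 1) = f (m + (k+1)) := rfl
      omega
  set B := (Finset.range M1).sup f with hB
  refine ⟨M1 + (B + 1), fun m hm => k1 m (by omega), fun m hm => k2 m (by omega), ?_⟩
  intro j hj
  by_cases hjM : j < M1
  · have h1 : f j ≤ B := Finset.le_sup (f := f) (Finset.mem_range.2 hjM)
    have h2 := hmono (B + 1)
    omega
  · push Not at hjM
    have h2 := hmono2 j hjM (M1 + (B+1) - j)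
    rw [show j + (M1 + (B+1) - j) = M1 + (B+1) by omega] at h2
    omega

theorem mono_of {f : ℕ → ℕ} {M : ℕ} (h1 : ∀ m ≥ M, f m < f (m+1)) {a b : ℕ} (ha : M ≤ a)
    (hab : a < b) : f a < f b := by
  induction b with
  | zero => omega
  | succ b ih =>
    rcases Nat.lt_succ_iff_lt_or_eq.1 hab with h | h
    · exact (ih h).trans (h1 b (by omega))
    · subst h; exact h1 a ha

theorem gapProp_of {f : ℕ → ℕ} {M : ℕ} (h1 : ∀ m ≥ M, f m < f (m+1))
    (h2 : ∀ m ≥ M, f (m+1) - f m < f (m+2) - f (m+1)) (h3 : ∀ j < M, f j < f M) :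
    GapProp (Set.range f) (f M) := by
  have key : ∀ x y, Consec (Set.range f) x y → f M ≤ x → ∃ m ≥ M, x = f m ∧ y = f (m+1) := by
    rintro x y ⟨⟨m, rfl⟩, ⟨m', rfl⟩, hlt, hno⟩ hx
    have hm : M ≤ m := by
      by_contra h
      exact absurd (h3 m (not_le.1 h)) (by omega)
    refine ⟨m, hm, rfl, ?_⟩
    have hm' : M ≤ m' := by
      by_contra h
      exact absurd (h3 m' (not_le.1 h)) (by omega)
    have hmm : m < m' := by
      by_contra h
      rcases lt_or_eq_of_le (not_lt.1 h) with h | h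
      · exact absurd (mono_of h1 hm' h) (by omega)
      · subst h; omega
    by_contra hne
    have hne2 : m + 1 ≠ m' := fun h => hne (by rw [h])
    have h5 := hno (f (m+1)) ⟨m+1, rfl⟩
    exact h5 ⟨h1 m hm, mono_of h1 (by omega) (by omega)⟩
  have gm : ∀ a b, M ≤ a → a < b → f (a+1) - f a < f (b+1) - f b := by
    intro a b ha hab
    have := mono_of (f := fun m => f (m+1) - f m) (M := M) (fun m hm => h2 m hm) ha hab
    exact this
  intro x y x' y' hc hc' hx hx' hg
  obtain ⟨m, hm, rfl, rfl⟩ := key x y hc hx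
  obtain ⟨m', hm', rfl, rfl⟩ := key x' y' hc' hx'
  rcases lt_trichotomy m m' with h | h | h
  · exact absurd (gm m m' hm h) (by omega)
  · rw [h]
  · exact absurd (gm m' m hm' h) (by omega)

end Pool.Agent.W899.ANS
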