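import Pool.Agent.W899.ANS3

set_option autoImplicit false

namespace Pool.Agent.W899.ANS

open Filter Polynomial

variable {A : Type} [LinearOrder A] [Fintype A]

theorem vv_unbounded (L : Language A) (hinf : (L : Set (List A)).Infinite) (x : ℕ) :
    ∃ n, x ≤ vv L n := by
  classical
  obtain ⟨S, hS, hc⟩ := hinf.exists_subset_card_eq x
  refine ⟨S.sup List.length + 1, ?_⟩
  have : (S : Set (List A)) ⊆ {u | u ∈ L ∧ u.length < S.sup List.length + 1} := by
    intro u hu
    exact ⟨hS hu, Nat.lt_succ_of_le (Finset.le_sup (f := List.length) hu)⟩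
  have h := Set.ncard_le_ncard this (fin_vv L _)
  rw [Set.ncard_coe_finset, hc] at h
  exact h

theorem vv_mono (L : Language A) {m n : ℕ} (h : m ≤ n) : vv L m ≤ vv L n :=
  Set.ncard_le_ncard (fun _ hz => ⟨hz.1, lt_of_lt_of_le hz.2 h⟩) (fin_vv L n)

theorem dfa_append {B σ : Type} (D : DFA B σ) {p p' : List B} (h : D.eval p = D.eval p')
    (u : List B) : p ++ u ∈ D.accepts ↔ p' ++ u ∈ D.accepts := by
  have h' : D.evalFrom D.start p = D.evalFrom D.start p' := h
  rw [DFA.mem_accepts, DFA.mem_accepts]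
  show D.evalFrom D.start (p ++ u) ∈ D.accept ↔ D.evalFrom D.start (p' ++ u) ∈ D.accept
  rw [DFA.evalFrom_of_append, DFA.evalFrom_of_append, h']

theorem vv_RR_le {R : Language A} (n0 K : ℕ)
    (h : ∀ n ≥ n0, {w | w ∈ R ∧ w.length = n}.ncard ≤ 1 + n * K) (n : ℕ) :
    {w | w ∈ R ∧ w.length < n0 + n}.ncard ≤
      {w | w ∈ R ∧ w.length < n0}.ncard + n * (1 + (n0 + n) * K) := by
  classical
  induction n with
  | zero => simp
  | succ n ih =>
    have hfin : ∀ k, {w | w ∈ R ∧ w.length < k}.Finite := fun k => fin_vv R k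
    have hsub : {w | w ∈ R ∧ w.length < n0 + (n + 1)} ⊆
        {w | w ∈ R ∧ w.length < n0 + n} ∪ {w | w ∈ R ∧ w.length = n0 + n} := by
      rintro w ⟨hw, hl⟩
      rcases lt_or_ge w.length (n0 + n) with h | h
      · left; exact ⟨hw, h⟩
      · right; exact ⟨hw, by omega⟩
    have h1 := Set.ncard_le_ncard hsub (((hfin _)).union
      ((finite_short (n0 + n)).subset (fun _ h => le_of_eq h.2)))
    have h2 := Set.ncard_union_le {w | w ∈ R ∧ w.length < n0 + n} {w | w ∈ R ∧ w.length = n0 + n}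
    have h3 := h (n0 + n) (by omega)
    calc _ ≤ _ := h1
      _ ≤ _ := h2
      _ ≤ ({w | w ∈ R ∧ w.length < n0}.ncard + n * (1 + (n0 + n) * K)) + (1 + (n0 + n) * K) := by
          omega
      _ ≤ _ := by
          have : (n0 + n) * K ≤ (n0 + (n + 1)) * K := Nat.mul_le_mul_right _ (by omega)
          nlinarith

theorem main (P : ℚ[X]) (hdeg : 2 ≤ P.natDegree) (f : ℕ → ℕ) (hf : ∀ n : ℕ, P.eval (n : ℚ) = f n)
    (L : Language A) (hreg : L.IsRegular) (hinf : (L : Set (List A)).Infinite)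
    (hrec : (RR L (Set.range f)).IsRegular) :
    ∃ (n0 c : ℕ), ∃ M : ℕ, (∀ m ≥ M, f m < f (m+1)) ∧
      ∀ n, {w | w ∈ L ∧ w.length = n}.ncard ≤ f (M + (c + (n+1) * (1 + (n0 + (n+1)) * c))) := by
  classical
  obtain ⟨M, h1, h2, h3⟩ := good_threshold P hdeg f hf
  have hgap := gapProp_of h1 h2 h3
  obtain ⟨σ₁, _, M1, hM1⟩ := hreg
  obtain ⟨σ₂, _, M2, hM2⟩ := hrec
  obtain ⟨n0, hn0⟩ := vv_unbounded L hinf (f M)
  set R := RR L (Set.range f) with hR
  have hlin : ∀ n ≥ n0, {w | w ∈ R ∧ w.length = n}.ncard ≤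
      1 + n * (Fintype.card (σ₁ × σ₂) * Fintype.card A) := by
    intro n hn
    rw [← mul_assoc]
    refine linear_bound hgap (fun p => (M1.eval p, M2.eval p)) ?_ (hn0.trans (vv_mono L hn))
    intro p p' hpp u
    simp only [Prod.mk.injEq] at hpp
    constructor
    · rw [← hM1]; exact dfa_append M1 hpp.1 u
    · rw [← hR, ← hM2]; exact dfa_append M2 hpp.2 u
  set K := Fintype.card (σ₁ × σ₂) * Fintype.card A with hK
  set B := {w | w ∈ R ∧ w.length < n0}.ncard with hB
  have hbound := vv_RR_le n0 K hlin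
  refine ⟨n0, B + K, M, h1, ?_⟩
  intro n
  have hT : {w | w ∈ R ∧ w.length < n0 + (n+1)}.ncard ≤ B + (n+1) * (1 + (n0 + (n+1)) * K) :=
    hbound (n+1)
  set T := B + (n+1) * (1 + (n0 + (n+1)) * K) with hTdef
  have hv : vv L (n0 + (n+1)) ≤ f (M + T) := by
    by_contra hlt
    push Not at hlt
    -- T+1 distinct words
    have hw : ∀ i : ℕ, i ≤ T → ∃ w ∈ R, w.length < n0 + (n+1) ∧ val L w = f (M + i) := by
      intro i hi
      have hle : f (M + i) ≤ f (M + T) := by
        rcases lt_or_eq_of_le hi with h | h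
        · exact (mono_of h1 (by omega) (by omega)).le
        · rw [h]
      obtain ⟨w, hw, hl, hv⟩ := val_surj (L := L) (n := n0 + (n+1)) (lt_of_le_of_lt hle hlt)
      exact ⟨w, ⟨hw, by rw [hv]; exact ⟨M + i, rfl⟩⟩, hl, hv⟩
    choose! g hg1 hg2 hg3 using hw
    have hinj : Set.InjOn g (Finset.range (T+1) : Set ℕ) := by
      intro i hi j hj hij
      rw [Finset.coe_range, Set.mem_Iio] at hi hj
      have e1 := hg3 i (by omega)
      have e2 := hg3 j (by omega)
      rw [hij, e2] at e1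
      rcases lt_trichotomy i j with h | h | h
      · exact absurd (mono_of h1 (show M ≤ M + i by omega) (show M + i < M + j by omega)) (by omega)
      · exact h
      · exact absurd (mono_of h1 (show M ≤ M + j by omega) (show M + j < M + i by omega)) (by omega)
    have hsub : ((Finset.range (T+1)).image g : Set (List A)) ⊆
        {w | w ∈ R ∧ w.length < n0 + (n+1)} := by
      intro w hw
      rw [Finset.coe_image] at hw
      obtain ⟨i, hi, rfl⟩ := hw
      rw [Finset.coe_range, Set.mem_Iio] at hi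
      exact ⟨hg1 i (by omega), hg2 i (by omega)⟩
    have hc := Set.ncard_le_ncard hsub (fin_vv R _)
    rw [Set.ncard_coe_finset, Finset.card_image_of_injOn hinj, Finset.card_range] at hc
    omega
  have hle1 : {w | w ∈ L ∧ w.length = n}.ncard ≤ vv L (n0 + (n+1)) := by
    refine Set.ncard_le_ncard ?_ (fin_vv L _)
    rintro w ⟨hw, hl⟩
    exact ⟨hw, by omega⟩
  have hle2 : f (M + T) ≤ f (M + (B + K + (n+1) * (1 + (n0 + (n+1)) * (B + K)))) := by
    have : T ≤ B + K + (n+1) * (1 + (n0 + (n+1)) * (B + K)) := by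
      rw [hTdef]
      have : (n0 + (n+1)) * K ≤ (n0 + (n+1)) * (B + K) := Nat.mul_le_mul_left _ (by omega)
      have : (n+1) * (1 + (n0 + (n+1)) * K) ≤ (n+1) * (1 + (n0 + (n+1)) * (B + K)) :=
        Nat.mul_le_mul_left _ (by omega)
      omega
    rcases lt_or_eq_of_le this with h | h
    · exact (mono_of h1 (by omega) (by omega)).le
    · rw [h]
  exact hle1.trans (hv.trans hle2)

theorem bigO (P : ℚ[X]) (f : ℕ → ℕ) (hf : ∀ n : ℕ, P.eval (n : ℚ) = f n) (g : ℕ → ℕ)
    (n0 c M : ℕ) (hg : ∀ n, g n ≤ f (M + (c + (n+1) * (1 + (n0 + (n+1)) * c)))) :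
    (fun n : ℕ => (g n : ℝ)) =O[atTop] (fun n : ℕ => (n : ℝ) ^ (2 * P.natDegree)) := by
  set p := P.map (algebraMap ℚ ℝ) with hp
  set q : ℝ[X] := C (M : ℝ) + (C (c:ℝ) + (X + C 1) * (C 1 + (C (n0:ℝ) + (X + C 1)) * C (c:ℝ))) with hq
  have hqd : q.natDegree ≤ 2 := by
    rw [hq]; compute_degree
  have hcomp : (p.comp q).natDegree ≤ 2 * P.natDegree := by
    refine (Polynomial.natDegree_comp_le).trans ?_
    rw [hp, Polynomial.natDegree_map]
    nlinarith
  have h1 : (fun x : ℝ => (p.comp q).eval x) =O[atTop]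
      (fun x : ℝ => (X ^ (2 * P.natDegree) : ℝ[X]).eval x) := by
    apply Polynomial.isBigO_atTop_of_degree_le
    rw [Polynomial.degree_X_pow]
    exact Polynomial.degree_le_of_natDegree_le hcomp
  have h2 := h1.comp_tendsto (tendsto_natCast_atTop_atTop (R := ℝ))
  refine Asymptotics.IsBigO.trans ?_ (h2.congr_right (g₂ := fun n : ℕ => (n : ℝ) ^ (2 * P.natDegree)) (by
    intro n; simp))
  refine Asymptotics.IsBigO.of_bound 1 ?_
  filter_upwards with n
  rw [one_mul, Real.norm_of_nonneg (by positivity), Function.comp, Real.norm_eq_abs]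
  refine le_trans ?_ (le_abs_self _)
  have e : (p.comp q).eval (n : ℝ) = (f (M + (c + (n+1) * (1 + (n0 + (n+1)) * c))) : ℝ) := by
    rw [Polynomial.eval_comp, ← eval_real P f hf, ← hp]
    congr 1
    rw [hq]
    simp
  rw [e]
  exact_mod_cast hg n

end Pool.Agent.W899.ANS
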